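import Pool.Agent.Helper8.DE.Defs
import Pool.Agent.Helper8.DC.PA

/-!
The form of order zero for coefficients in `E` is nonnegative, and it vanishes only at the multiples
of the identity.

`kE` is linear in `M`, and `2 |v|² kE (v vᵀ) φ = ∑_t |v × (ψ (v × e_t) - v × ψ e_t)|² + |v × ψ v|²` with
`ψ x = ∑ x_r φ_r`. A positive definite `M` is a combination with positive coefficients of three
such matrices, whose sum is the identity.
-/

set_option autoImplicit false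

namespace Pool.Agent.Helper8.DE

open Pool.Agent.Helper8.DC Pool.Agent.Helper8.DA

/-- `v vᵀ` -/
def vvT (v : R3) : Matrix (Fin 3) (Fin 3) ℝ := Matrix.of fun a b => v a * v b

theorem kE_expand (M : Matrix (Fin 3) (Fin 3) ℝ) (φ : Fin 3 → R3) : kE M φ =
    (φ 0 0 ^ 2 + φ 0 1 ^ 2 + φ 0 2 ^ 2 + φ 1 0 ^ 2 + φ 1 1 ^ 2 + φ 1 2 ^ 2 + φ 2 0 ^ 2 +
      φ 2 1 ^ 2 + φ 2 2 ^ 2) * (M 0 0 + M 1 1 + M 2 2) -
    (∑ r, ∑ a, ∑ b, φ r a * M a b * φ r b) +
    2 * ((φ 1 2 * φ 2 1 - φ 1 1 * φ 2 2) * M 0 0 + (φ 1 0 * φ 2 2 - φ 1 2 * φ 2 0) * M 0 1 +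
      (φ 1 1 * φ 2 0 - φ 1 0 * φ 2 1) * M 0 2 + (φ 2 2 * φ 0 1 - φ 2 1 * φ 0 2) * M 1 0 +
      (φ 2 0 * φ 0 2 - φ 2 2 * φ 0 0) * M 1 1 + (φ 2 1 * φ 0 0 - φ 2 0 * φ 0 1) * M 1 2 +
      (φ 0 2 * φ 1 1 - φ 0 1 * φ 1 2) * M 2 0 + (φ 0 0 * φ 1 2 - φ 0 2 * φ 1 0) * M 2 1 +
      (φ 0 1 * φ 1 0 - φ 0 0 * φ 1 1) * M 2 2) := by
  unfold kE crossMat
  simp only [Fin.sum_univ_three, crossProduct, Matrix.trace_fin_three, LinearMap.mk₂_apply,
    Matrix.of_apply, Matrix.cons_val_zero, Matrix.cons_val_one, Matrix.cons_val, Pi.single_apply]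
  simp
  ring

theorem kE_lin (N : Fin 3 → Matrix (Fin 3) (Fin 3) ℝ) (d : Fin 3 → ℝ)
    (M : Matrix (Fin 3) (Fin 3) ℝ) (hM : ∀ a b, M a b = ∑ i, d i * N i a b) (φ : Fin 3 → R3) :
    kE M φ = ∑ i, d i * kE (N i) φ := by
  simp only [kE_expand, hM, Fin.sum_univ_three]
  ring

/-- The components of `v × (ψ (v × e_t) - v × ψ e_t)`. -/
theorem kE_vvT (v : R3) (φ : Fin 3 → R3) : 2 * (v 0 ^ 2 + v 1 ^ 2 + v 2 ^ 2) * kE (vvT v) φ =
    ∑ t, ∑ a, crossProduct v ((∑ r, crossProduct v (Pi.single t 1) r • φ r) -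
      crossProduct v (φ t)) a ^ 2 + ∑ a, crossProduct v (∑ r, v r • φ r) a ^ 2 := by
  rw [kE_expand]
  unfold vvT
  simp only [Fin.sum_univ_three, crossProduct, LinearMap.mk₂_apply,
    Matrix.of_apply, Matrix.cons_val_zero, Matrix.cons_val_one, Matrix.cons_val, Pi.single_apply,
    Pi.add_apply, Pi.sub_apply, Pi.smul_apply, smul_eq_mul]
  simp
  ring

theorem kE_vvT_nonneg (v : R3) (φ : Fin 3 → R3) : 0 ≤ kE (vvT v) φ := by
  by_cases hv : v = 0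
  · subst hv
    rw [kE_expand]
    simp [vvT]
  · have hpos : 0 < v 0 ^ 2 + v 1 ^ 2 + v 2 ^ 2 := by
      by_contra h
      apply hv
      have h0 : v 0 = 0 := by nlinarith [sq_nonneg (v 0), sq_nonneg (v 1), sq_nonneg (v 2)]
      have h1 : v 1 = 0 := by nlinarith [sq_nonneg (v 0), sq_nonneg (v 1), sq_nonneg (v 2)]
      have h2 : v 2 = 0 := by nlinarith [sq_nonneg (v 0), sq_nonneg (v 1), sq_nonneg (v 2)]
      funext i
      fin_cases i
      · exact h0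
      · exact h1
      · exact h2
    have h1 : 0 ≤ 2 * (v 0 ^ 2 + v 1 ^ 2 + v 2 ^ 2) * kE (vvT v) φ := by
      rw [kE_vvT]
      exact add_nonneg (Finset.sum_nonneg fun t _ => Finset.sum_nonneg fun a _ => sq_nonneg _)
        (Finset.sum_nonneg fun a _ => sq_nonneg _)
    exact nonneg_of_mul_nonneg_right h1 (by positivity)

theorem kE_one (φ : Fin 3 → R3) : kE 1 φ =
    ((φ 0 1 + φ 1 0) ^ 2 + (φ 0 0 - φ 1 1) ^ 2 + φ 2 0 ^ 2 + φ 2 1 ^ 2) +
    ((φ 1 2 + φ 2 1) ^ 2 + (φ 1 1 - φ 2 2) ^ 2 + φ 0 1 ^ 2 + φ 0 2 ^ 2) +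
    ((φ 2 0 + φ 0 2) ^ 2 + (φ 2 2 - φ 0 0) ^ 2 + φ 1 2 ^ 2 + φ 1 0 ^ 2) := by
  rw [kE_expand]
  simp only [Fin.sum_univ_three]
  simp
  ring

theorem kE_one_zero (φ : Fin 3 → R3) (h : kE 1 φ = 0) :
    ∃ s : ℝ, ∀ r, φ r = s • Pi.single r 1 := by
  rw [kE_one] at h
  have q1 := sq_nonneg (φ 0 1 + φ 1 0)
  have q2 := sq_nonneg (φ 0 0 - φ 1 1)
  have q3 := sq_nonneg (φ 2 0)
  have q4 := sq_nonneg (φ 2 1)
  have q5 := sq_nonneg (φ 1 2 + φ 2 1)
  have q6 := sq_nonneg (φ 1 1 - φ 2 2)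
  have q7 := sq_nonneg (φ 0 1)
  have q8 := sq_nonneg (φ 0 2)
  have q9 := sq_nonneg (φ 2 0 + φ 0 2)
  have q10 := sq_nonneg (φ 2 2 - φ 0 0)
  have q11 := sq_nonneg (φ 1 2)
  have q12 := sq_nonneg (φ 1 0)
  have h1 : φ 2 0 = 0 := pow_eq_zero_iff two_ne_zero |>.1 (by linarith)
  have h2 : φ 2 1 = 0 := pow_eq_zero_iff two_ne_zero |>.1 (by linarith)
  have h3 : φ 0 1 = 0 := pow_eq_zero_iff two_ne_zero |>.1 (by linarith)
  have h4 : φ 0 2 = 0 := pow_eq_zero_iff two_ne_zero |>.1 (by linarith)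
  have h5 : φ 1 2 = 0 := pow_eq_zero_iff two_ne_zero |>.1 (by linarith)
  have h6 : φ 1 0 = 0 := pow_eq_zero_iff two_ne_zero |>.1 (by linarith)
  have h7 : φ 0 0 - φ 1 1 = 0 := pow_eq_zero_iff two_ne_zero |>.1 (by linarith)
  have h8 : φ 1 1 - φ 2 2 = 0 := pow_eq_zero_iff two_ne_zero |>.1 (by linarith)
  refine ⟨φ 0 0, fun r => ?_⟩
  have e1 : φ 1 1 = φ 0 0 := by linarith
  have e2 : φ 2 2 = φ 0 0 := by linarith
  funext a
  fin_cases r <;> fin_cases a <;> simp [h1, h2, h3, h4, h5, h6, e1, e2]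

theorem exists_diag (M : Matrix (Fin 3) (Fin 3) ℝ) (hM : M.transpose = M)
    (hpos : ∀ v : R3, v ≠ 0 → 0 < ∑ a, ∑ b, v a * M a b * v b) :
    ∃ (v : Fin 3 → R3) (d : Fin 3 → ℝ), (∀ i, 0 < d i) ∧
      (∀ a b, M a b = ∑ i, d i * vvT (v i) a b) ∧
      (∀ a b, (1 : Matrix (Fin 3) (Fin 3) ℝ) a b = ∑ i, 1 * vvT (v i) a b) := by
  obtain ⟨R, hR, hd⟩ := rot_diag_orth M hM
  have hR' : R.transpose * R = 1 := mul_eq_one_comm.1 hR
  refine ⟨fun i => R i, fun i => (R * M * R.transpose) i i, ?_, ?_, ?_⟩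
  · intro i
    have h1 : (R * M * R.transpose) i i = ∑ a, ∑ b, R i a * M a b * R i b := by
      rw [Matrix.mul_apply]
      simp only [Matrix.mul_apply, Matrix.transpose_apply, Finset.sum_mul]
      rw [Finset.sum_comm]
    have h2 : R i ≠ 0 := by
      intro h
      have h3 := congrFun (congrFun hR i) i
      rw [Matrix.mul_apply, Matrix.one_apply_eq] at h3
      simp [h] at h3
    show 0 < (R * M * R.transpose) i i
    rw [h1]
    exact hpos (R i) h2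
  · intro a b
    have h1 : M = R.transpose * (R * M * R.transpose) * R := by
      calc M = (R.transpose * R) * M * (R.transpose * R) := by rw [hR', one_mul, mul_one]
        _ = _ := by simp only [Matrix.mul_assoc]
    have h2 : R * M * R.transpose = Matrix.diagonal fun i => (R * M * R.transpose) i i := by
      ext i j
      by_cases hij : i = j
      · subst hij
        rw [Matrix.diagonal_apply_eq]
      · rw [Matrix.diagonal_apply_ne _ hij, hd i j hij]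
    conv_lhs => rw [h1, h2]
    rw [Matrix.mul_assoc, Matrix.mul_apply]
    simp only [Matrix.diagonal_mul, Matrix.transpose_apply, vvT, Matrix.of_apply]
    exact Finset.sum_congr rfl fun i _ => by ring
  · intro a b
    rw [← hR', Matrix.mul_apply]
    simp only [Matrix.transpose_apply, vvT, Matrix.of_apply, one_mul]

/-- E4b -/
theorem kE_nonneg (M : Matrix (Fin 3) (Fin 3) ℝ) (hM : M.transpose = M)
    (hpos : ∀ v : R3, v ≠ 0 → 0 < ∑ a, ∑ b, v a * M a b * v b) (φ : Fin 3 → R3) : 0 ≤ kE M φ := by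
  obtain ⟨v, d, hd, h1, -⟩ := exists_diag M hM hpos
  rw [kE_lin (fun i => vvT (v i)) d M h1]
  exact Finset.sum_nonneg fun i _ => mul_nonneg (hd i).le (kE_vvT_nonneg _ _)

/-- E4c -/
theorem kE_zero (M : Matrix (Fin 3) (Fin 3) ℝ) (hM : M.transpose = M)
    (hpos : ∀ v : R3, v ≠ 0 → 0 < ∑ a, ∑ b, v a * M a b * v b) (φ : Fin 3 → R3)
    (h : kE M φ = 0) : ∃ s : ℝ, ∀ r, φ r = s • Pi.single r 1 := by
  obtain ⟨v, d, hd, h1, h2⟩ := exists_diag M hM hpos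
  rw [kE_lin (fun i => vvT (v i)) d M h1] at h
  have h3 := (Finset.sum_eq_zero_iff_of_nonneg fun i _ =>
    mul_nonneg (hd i).le (kE_vvT_nonneg (v i) φ)).1 h
  apply kE_one_zero
  rw [kE_lin (fun i => vvT (v i)) (fun _ => 1) 1 h2]
  refine Finset.sum_eq_zero fun i hi => ?_
  rcases mul_eq_zero.1 (h3 i hi) with h4 | h4
  · exact absurd h4 (hd i).ne'
  · rw [h4, mul_zero]

end Pool.Agent.Helper8.DE
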