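import Pool.Agent.Helper8.DC.PB

/-!
The pointwise inequality for symmetric sections, diagonal case.

With `p = G_2 O_01`, `q = G_1 O_02`, `r = G_0 O_12`, `O_ab = cm1 (c a) b`, the sum of the three
quadratic expressions is `8 / (m_0 m_1 m_2)` times
`(m_0 + m_1) T(p,p) + (m_0 + m_2) T(q,q) + (m_1 + m_2) T(r,r) - w_0 T(p,q) - w_1 T(p,r) - w_2 T(q,r)`.
-/

set_option autoImplicit false

namespace Pool.Agent.Helper8.DE

open Pool.Agent.Helper8.DC Matrix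

/-- Lagrange's reduction of a form in three variables. -/
theorem psd_three (T : Matrix (Fin 4) (Fin 4) ℝ) (hT : T.transpose = T)
    (hpos : ∀ u : Fin 4 → ℝ, 0 ≤ u ⬝ᵥ (T *ᵥ u)) (p q r : Fin 4 → ℝ) (A B C e f g : ℝ)
    (hA : 0 < A) (hAB : 0 < A * B - e ^ 2)
    (hdet : 0 ≤ A * B * C + 2 * e * f * g - A * g ^ 2 - B * f ^ 2 - C * e ^ 2) :
    0 ≤ A * (p ⬝ᵥ (T *ᵥ p)) + B * (q ⬝ᵥ (T *ᵥ q)) + C * (r ⬝ᵥ (T *ᵥ r)) +
      2 * e * (p ⬝ᵥ (T *ᵥ q)) + 2 * f * (p ⬝ᵥ (T *ᵥ r)) + 2 * g * (q ⬝ᵥ (T *ᵥ r)) := by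
  have hsym : ∀ a b : Fin 4 → ℝ, b ⬝ᵥ (T *ᵥ a) = a ⬝ᵥ (T *ᵥ b) := by
    intro a b
    rw [Matrix.dotProduct_mulVec, ← Matrix.mulVec_transpose, hT, dotProduct_comm]
  set D := A * B - e ^ 2 with hD
  set E := A * g - e * f with hE
  have h1 := hpos (A • p + e • q + f • r)
  have h2 := hpos (D • q + E • r)
  have h3 := hpos r
  have e1 : (A • p + e • q + f • r) ⬝ᵥ (T *ᵥ (A • p + e • q + f • r)) =
      A * (A * (p ⬝ᵥ (T *ᵥ p)) + B * (q ⬝ᵥ (T *ᵥ q)) + C * (r ⬝ᵥ (T *ᵥ r)) +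
      2 * e * (p ⬝ᵥ (T *ᵥ q)) + 2 * f * (p ⬝ᵥ (T *ᵥ r)) + 2 * g * (q ⬝ᵥ (T *ᵥ r))) -
      (D * (q ⬝ᵥ (T *ᵥ q)) + 2 * E * (q ⬝ᵥ (T *ᵥ r)) + (A * C - f ^ 2) * (r ⬝ᵥ (T *ᵥ r))) := by
    simp only [Matrix.mulVec_add, Matrix.mulVec_smul, dotProduct_add, add_dotProduct,
      smul_dotProduct, dotProduct_smul, smul_eq_mul, hsym p q, hsym p r, hsym q r]
    rw [hD, hE]
    ring
  have e2 : (D • q + E • r) ⬝ᵥ (T *ᵥ (D • q + E • r)) =
      D * (D * (q ⬝ᵥ (T *ᵥ q)) + 2 * E * (q ⬝ᵥ (T *ᵥ r)) +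
        (A * C - f ^ 2) * (r ⬝ᵥ (T *ᵥ r))) -
      A * (A * B * C + 2 * e * f * g - A * g ^ 2 - B * f ^ 2 - C * e ^ 2) *
        (r ⬝ᵥ (T *ᵥ r)) := by
    simp only [Matrix.mulVec_add, Matrix.mulVec_smul, dotProduct_add, add_dotProduct,
      smul_dotProduct, dotProduct_smul, smul_eq_mul, hsym q r]
    rw [hD, hE]
    ring
  rw [e1] at h1
  rw [e2] at h2
  have h4 : 0 ≤ A * (A * B * C + 2 * e * f * g - A * g ^ 2 - B * f ^ 2 - C * e ^ 2) *
      (r ⬝ᵥ (T *ᵥ r)) := mul_nonneg (mul_nonneg hA.le hdet) h3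
  have h5 : 0 ≤ D * (q ⬝ᵥ (T *ᵥ q)) + 2 * E * (q ⬝ᵥ (T *ᵥ r)) +
        (A * C - f ^ 2) * (r ⬝ᵥ (T *ᵥ r)) := by
    refine nonneg_of_mul_nonneg_right ?_ hAB
    linarith
  refine nonneg_of_mul_nonneg_right ?_ hA
  linarith

/-- The form in the three vectors. -/
theorem psd_fin (T : Matrix (Fin 4) (Fin 4) ℝ) (hT : T.transpose = T)
    (hpos : ∀ u : Fin 4 → ℝ, 0 ≤ u ⬝ᵥ (T *ᵥ u)) (p q r : Fin 4 → ℝ) (a b c : ℝ)
    (ha : 0 < a) (hb : 0 < b) (hc : 0 < c)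
    (hpin : 0 ≤ (b + c - a) * (a + c - b) * (a + b - c) + 24 * (a * b * c)) :
    0 ≤ (a + b) * (p ⬝ᵥ (T *ᵥ p)) + (a + c) * (q ⬝ᵥ (T *ᵥ q)) + (b + c) * (r ⬝ᵥ (T *ᵥ r)) -
      (b + c - a) * (p ⬝ᵥ (T *ᵥ q)) - (a + c - b) * (p ⬝ᵥ (T *ᵥ r)) -
      (a + b - c) * (q ⬝ᵥ (T *ᵥ r)) := by
  have hsym : ∀ a b : Fin 4 → ℝ, b ⬝ᵥ (T *ᵥ a) = a ⬝ᵥ (T *ᵥ b) := by
    intro a b
    rw [Matrix.dotProduct_mulVec, ← Matrix.mulVec_transpose, hT, dotProduct_comm]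
  have hdet : 0 ≤ (a + b) * (a + c) * (b + c) +
      2 * (-(b + c - a) / 2) * (-(a + c - b) / 2) * (-(a + b - c) / 2) -
      (a + b) * (-(a + b - c) / 2) ^ 2 - (a + c) * (-(a + c - b) / 2) ^ 2 -
      (b + c) * (-(b + c - a) / 2) ^ 2 := by
    have e : (a + b) * (a + c) * (b + c) +
        2 * (-(b + c - a) / 2) * (-(a + c - b) / 2) * (-(a + b - c) / 2) -
        (a + b) * (-(a + b - c) / 2) ^ 2 - (a + c) * (-(a + c - b) / 2) ^ 2 -
        (b + c) * (-(b + c - a) / 2) ^ 2 =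
        ((b + c - a) * (a + c - b) * (a + b - c) + 24 * (a * b * c)) / 4 := by ring
    rw [e]
    linarith
  by_cases h0 : b ≤ a ∧ c ≤ a
  · have h1 := psd_three T hT hpos p q r (a + b) (a + c) (b + c) (-(b + c - a) / 2)
      (-(a + c - b) / 2) (-(a + b - c) / 2) (by linarith)
      (by nlinarith [mul_pos ha hb, mul_pos ha hc, mul_pos hb hc, h0.1, h0.2]) hdet
    linarith
  · by_cases h1 : a ≤ b ∧ c ≤ b
    · have h2 := psd_three T hT hpos p r q (a + b) (b + c) (a + c) (-(a + c - b) / 2)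
        (-(b + c - a) / 2) (-(a + b - c) / 2) (by linarith)
        (by nlinarith [mul_pos ha hb, mul_pos ha hc, mul_pos hb hc, h1.1, h1.2])
        (by linarith)
      rw [hsym q r] at h2
      linarith
    · have h2 : a ≤ c ∧ b ≤ c := by
        by_contra h3
        rcases le_total a b with hab | hab
        · rcases le_total b c with hbc | hbc
          · exact h3 ⟨by linarith, hbc⟩
          · exact h1 ⟨hab, hbc⟩
        · rcases le_total a c with hac | hac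
          · exact h3 ⟨hac, by linarith⟩
          · exact h0 ⟨hab, hac⟩
      have h3 := psd_three T hT hpos q r p (a + c) (b + c) (a + b) (-(a + b - c) / 2)
        (-(b + c - a) / 2) (-(a + c - b) / 2) (by linarith)
        (by nlinarith [mul_pos ha hb, mul_pos ha hc, mul_pos hb hc, h2.1, h2.2])
        (by linarith)
      rw [hsym p q, hsym p r] at h3
      linarith

/-- Elimination of the diagonal term in one row. -/
theorem row_el (T U : Matrix (Fin 4) (Fin 4) ℝ) (hT : T.transpose = T) (m m' w w' w0 : ℝ)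
    (hm : 0 < m) (hm' : 0 < m') (hU : U.transpose * T * U = (m * m' / 4) • T)
    (h1 : w0 + w = 2 * m') (h2 : w0 + w' = 2 * m) (x x' x0 p q : Fin 4 → ℝ)
    (hx : m' • x = (-2 : ℝ) • (U *ᵥ p)) (hx' : m • x' = (2 : ℝ) • (U *ᵥ q))
    (hs : x0 = -(x + x')) :
    4 * (w0 * (x0 ⬝ᵥ (T *ᵥ x0)) + w * (x ⬝ᵥ (T *ᵥ x)) + w' * (x' ⬝ᵥ (T *ᵥ x'))) =
      8 * (m * (p ⬝ᵥ (T *ᵥ p)) + m' * (q ⬝ᵥ (T *ᵥ q)) - w0 * (p ⬝ᵥ (T *ᵥ q))) := by
  have hsym : ∀ a b : Fin 4 → ℝ, b ⬝ᵥ (T *ᵥ a) = a ⬝ᵥ (T *ᵥ b) := by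
    intro a b
    rw [Matrix.dotProduct_mulVec, ← Matrix.mulVec_transpose, hT, dotProduct_comm]
  have hUU : ∀ a b : Fin 4 → ℝ, (U *ᵥ a) ⬝ᵥ (T *ᵥ (U *ᵥ b)) = m * m' / 4 * (a ⬝ᵥ (T *ᵥ b)) := by
    intro a b
    have e1 : (U *ᵥ a) ⬝ᵥ (T *ᵥ (U *ᵥ b)) = a ⬝ᵥ ((U.transpose * T * U) *ᵥ b) := by
      rw [dotProduct_comm, Matrix.dotProduct_mulVec, ← Matrix.mulVec_transpose, dotProduct_comm,
        Matrix.mulVec_mulVec, Matrix.mulVec_mulVec, Matrix.mul_assoc]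
    rw [e1, hU, Matrix.smul_mulVec, dotProduct_smul, smul_eq_mul]
  have a1 : m' * m' * (x ⬝ᵥ (T *ᵥ x)) = m * m' * (p ⬝ᵥ (T *ᵥ p)) := by
    have e1 : m' * m' * (x ⬝ᵥ (T *ᵥ x)) = (m' • x) ⬝ᵥ (T *ᵥ (m' • x)) := by
      simp only [Matrix.mulVec_smul, smul_dotProduct, dotProduct_smul, smul_eq_mul]
      ring
    rw [e1, hx]
    simp only [Matrix.mulVec_smul, smul_dotProduct, dotProduct_smul, smul_eq_mul, hUU]
    ring
  have a2 : m * m * (x' ⬝ᵥ (T *ᵥ x')) = m * m' * (q ⬝ᵥ (T *ᵥ q)) := by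
    have e1 : m * m * (x' ⬝ᵥ (T *ᵥ x')) = (m • x') ⬝ᵥ (T *ᵥ (m • x')) := by
      simp only [Matrix.mulVec_smul, smul_dotProduct, dotProduct_smul, smul_eq_mul]
      ring
    rw [e1, hx']
    simp only [Matrix.mulVec_smul, smul_dotProduct, dotProduct_smul, smul_eq_mul, hUU]
    ring
  have a3 : m' * m * (x ⬝ᵥ (T *ᵥ x')) = -(m' * m * (p ⬝ᵥ (T *ᵥ q))) := by
    have e1 : m' * m * (x ⬝ᵥ (T *ᵥ x')) = (m' • x) ⬝ᵥ (T *ᵥ (m • x')) := by
      simp only [Matrix.mulVec_smul, smul_dotProduct, dotProduct_smul, smul_eq_mul]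
      ring
    rw [e1, hx, hx']
    simp only [Matrix.mulVec_smul, smul_dotProduct, dotProduct_smul, smul_eq_mul, hUU]
    ring
  have b1 : m' * (x ⬝ᵥ (T *ᵥ x)) = m * (p ⬝ᵥ (T *ᵥ p)) := by
    apply mul_left_cancel₀ hm'.ne'
    linarith
  have b2 : m * (x' ⬝ᵥ (T *ᵥ x')) = m' * (q ⬝ᵥ (T *ᵥ q)) := by
    apply mul_left_cancel₀ hm.ne'
    linarith
  have b3 : x ⬝ᵥ (T *ᵥ x') = -(p ⬝ᵥ (T *ᵥ q)) := by
    apply mul_left_cancel₀ (mul_pos hm' hm).ne'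
    linarith
  have b0 : x0 ⬝ᵥ (T *ᵥ x0) = x ⬝ᵥ (T *ᵥ x) + x' ⬝ᵥ (T *ᵥ x') + 2 * (x ⬝ᵥ (T *ᵥ x')) := by
    rw [hs]
    simp only [Matrix.mulVec_neg, Matrix.mulVec_add, dotProduct_neg, neg_dotProduct,
      dotProduct_add, add_dotProduct, hsym x x']
    ring
  have hw : w = 2 * m' - w0 := by linarith
  have hw' : w' = 2 * m - w0 := by linarith
  rw [b0, hw, hw', b3]
  linear_combination 8 * b1 + 8 * b2

section

variable (F : Fin 4 → Fin 4 → R3)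

theorem rel_dg (hs : Skew F) (a : Fin 3) : pBmtF (cmp F a) * pBmtG (cmp F a) =
    (-(gram F a a / 2)) • (1 : Matrix (Fin 4) (Fin 4) ℝ) := by
  have sk : ∀ l m, cmp F a l m = -cmp F a m l := fun l m => by
    have := congrFun (hs l m) a
    simpa [DC.cmp] using this
  have h := pB_anti_FG (cmp F a) (cmp F a) sk sk
  rw [← two_smul ℝ] at h
  have h' := congrArg (fun M => (1 / 2 : ℝ) • M) h
  simp only [smul_smul] at h'
  norm_num at h'
  rw [h']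
  simp only [DC.gram]
  rw [← neg_smul]
  congr 1
  ring

theorem rel_gd (hs : Skew F) (a : Fin 3) : pBmtG (cmp F a) * pBmtF (cmp F a) =
    (-(gram F a a / 2)) • (1 : Matrix (Fin 4) (Fin 4) ℝ) := by
  have sk : ∀ l m, cmp F a l m = -cmp F a m l := fun l m => by
    have := congrFun (hs l m) a
    simpa [DC.cmp] using this
  have h := pB_anti_GF (cmp F a) (cmp F a) sk sk
  rw [← two_smul ℝ] at h
  have h' := congrArg (fun M => (1 / 2 : ℝ) • M) h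
  simp only [smul_smul] at h'
  norm_num at h'
  rw [h']
  simp only [DC.gram]
  rw [← neg_smul]
  congr 1
  ring

theorem rel_an (hs : Skew F) (a b : Fin 3) (h : gram F a b = 0) :
    pBmtF (cmp F a) * pBmtG (cmp F b) = -(pBmtF (cmp F b) * pBmtG (cmp F a)) := by
  have sk : ∀ a l m, cmp F a l m = -cmp F a m l := fun a l m => by
    have := congrFun (hs l m) a
    simpa [DC.cmp] using this
  have h' := pB_anti_FG (cmp F a) (cmp F b) (sk a) (sk b)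
  have h2 : wedge (cmp F a) (cmp F b) = 0 := h
  rw [h2, neg_zero, zero_smul] at h'
  exact eq_neg_of_add_eq_zero_left h'

theorem rel_bn (hs : Skew F) (a b : Fin 3) (h : gram F a b = 0) :
    pBmtG (cmp F a) * pBmtF (cmp F b) = -(pBmtG (cmp F b) * pBmtF (cmp F a)) := by
  have sk : ∀ a l m, cmp F a l m = -cmp F a m l := fun a l m => by
    have := congrFun (hs l m) a
    simpa [DC.cmp] using this
  have h' := pB_anti_GF (cmp F a) (cmp F b) (sk a) (sk b)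
  have h2 : wedge (cmp F a) (cmp F b) = 0 := h
  rw [h2, neg_zero, zero_smul] at h'
  exact eq_neg_of_add_eq_zero_left h'

/-- The matrix `T`. -/
noncomputable def TT : Matrix (Fin 4) (Fin 4) ℝ :=
  pBmtF (cmp F 0) * pBmtG (cmp F 2) * pBmtF (cmp F 1)

theorem gram_symm (a b : Fin 3) : gram F a b = gram F b a := by
  simp only [DC.gram, wedge]
  ring

theorem TT_facts (hs : Skew F) (h01 : gram F 0 1 = 0) (h02 : gram F 0 2 = 0)
    (h12 : gram F 1 2 = 0) :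
    TT F = pBmtF (cmp F 2) * pBmtG (cmp F 1) * pBmtF (cmp F 0) ∧
    TT F = pBmtF (cmp F 1) * pBmtG (cmp F 0) * pBmtF (cmp F 2) ∧
    (TT F).transpose = TT F := by
  have sk : ∀ a l m, cmp F a l m = -cmp F a m l := fun a l m => by
    have := congrFun (hs l m) a
    simpa [DC.cmp] using this
  have h20 : gram F 2 0 = 0 := by rw [gram_symm, h02]
  have h21 : gram F 2 1 = 0 := by rw [gram_symm, h12]
  exact pB_cyc_mats (pBmtF (cmp F 0)) (pBmtF (cmp F 1)) (pBmtF (cmp F 2))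
    (pBmtG (cmp F 0)) (pBmtG (cmp F 1)) (pBmtG (cmp F 2))
    (pBmtF_transpose _ (sk 0)) (pBmtF_transpose _ (sk 1)) (pBmtG_transpose _)
    (rel_an F hs 0 2 h02) (rel_an F hs 2 1 h21) (rel_bn F hs 0 1 h01) (rel_bn F hs 2 0 h20)

theorem TT_pos (hs : Skew F) (h01 : gram F 0 1 = 0) (h02 : gram F 0 2 = 0)
    (h12 : gram F 1 2 = 0)
    (hU : ∀ u : Fin 4 → ℝ, quad (fun m a => val F u (Pi.single m 1) a) F ≤ 0) (u : Fin 4 → ℝ) :
    0 ≤ u ⬝ᵥ (TT F *ᵥ u) := by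
  have sk : ∀ a l m, cmp F a l m = -cmp F a m l := fun a l m => by
    have := congrFun (hs l m) a
    simpa [DC.cmp] using this
  obtain ⟨e1, e2, hT⟩ := TT_facts F hs h01 h02 h12
  have hu := hU u
  have hiota : ∀ a, cm1 (fun m a => val F u (Pi.single m 1) a) a = -(pBmtF (cmp F a) *ᵥ u) := by
    intro a
    have s := sk a
    have s0 : ∀ l, cmp F a l l = 0 := fun l => by have := s l l; linarith
    simp only [DC.cmp] at s s0
    funext m
    fin_cases m <;>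
      simp [cm1, val, pBmtF, DC.cmp, Matrix.mulVec, dotProduct, Fin.sum_univ_four, Pi.single_apply,
        s0, s 1 0, s 2 0, s 3 0, s 2 1, s 3 1, s 3 2] <;> ring
  have term : ∀ (A B : Matrix (Fin 4) (Fin 4) ℝ) (G : Matrix (Fin 4) (Fin 4) ℝ),
      A.transpose = -A → A * G * B = TT F →
      (-(A *ᵥ u)) ⬝ᵥ (G *ᵥ (-(B *ᵥ u))) = -(u ⬝ᵥ (TT F *ᵥ u)) := by
    intro A B G hA hAB
    rw [← hAB, Matrix.mulVec_neg, neg_dotProduct_neg, dotProduct_comm, Matrix.dotProduct_mulVec,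
      ← Matrix.mulVec_transpose, hA, dotProduct_comm, Matrix.mulVec_mulVec,
      Matrix.mulVec_mulVec]
    simp [Matrix.mul_assoc, Matrix.neg_mulVec, Matrix.mulVec_mulVec]
  rw [quad, pB_wedge3_eq, pB_wedge3_eq, pB_wedge3_eq, hiota 0, hiota 1, hiota 2,
    term _ _ _ (pBmtF_transpose _ (sk 0)) rfl,
    term _ _ _ (pBmtF_transpose _ (sk 1)) e2.symm,
    term _ _ _ (pBmtF_transpose _ (sk 2)) e1.symm] at hu
  linarith

/-- The vector `x_a = G_a α_a`. -/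
noncomputable def xx (α : Fin 4 → R3) (a : Fin 3) : Fin 4 → ℝ := pBmtG (cmp F a) *ᵥ cm1 α a

theorem xx_sum (α : Fin 4 → R3) (hα : Constr α F) : xx F α 0 + xx F α 1 + xx F α 2 = 0 := by
  apply dotProduct_eq_zero
  intro β
  have hβ := hα β
  simp only [Fin.sum_univ_three, pB_wedge3_eq] at hβ
  have tr : ∀ a, cm1 α a ⬝ᵥ (pBmtG (cmp F a) *ᵥ β) = -(xx F α a ⬝ᵥ β) := by
    intro a
    rw [Matrix.dotProduct_mulVec, ← Matrix.mulVec_transpose, pBmtG_transpose, Matrix.neg_mulVec,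
      neg_dotProduct]
    rfl
  rw [tr, tr, tr] at hβ
  rw [add_dotProduct, add_dotProduct]
  linarith

/-- One row in the symmetric form. -/
theorem quad_row (hs : Skew F) (h01 : gram F 0 1 = 0) (h02 : gram F 0 2 = 0)
    (h12 : gram F 1 2 = 0) (α : Fin 4 → R3) (hα : Constr α F) :
    gram F 0 0 * gram F 1 1 * gram F 2 2 * quad α F =
      4 * ((gram F 1 1 + gram F 2 2 - gram F 0 0) * (xx F α 0 ⬝ᵥ (TT F *ᵥ xx F α 0)) +
        (gram F 0 0 + gram F 2 2 - gram F 1 1) * (xx F α 1 ⬝ᵥ (TT F *ᵥ xx F α 1)) +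
        (gram F 0 0 + gram F 1 1 - gram F 2 2) * (xx F α 2 ⬝ᵥ (TT F *ᵥ xx F α 2))) := by
  have sk : ∀ a l m, cmp F a l m = -cmp F a m l := fun a l m => by
    have := congrFun (hs l m) a
    simpa [DC.cmp] using this
  obtain ⟨e1, e2, hT⟩ := TT_facts F hs h01 h02 h12
  have hsum : xx F α 2 = -(xx F α 0 + xx F α 1) := by
    have h3 := xx_sum F α hα
    rw [add_comm] at h3
    exact eq_neg_of_add_eq_zero_left h3
  have q01 := pB_single_term _ _ _ (TT F) _ _ _ _ (pBmtF_transpose _ (sk 0)) (rel_dg F hs 0)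
    (rel_dg F hs 1) rfl (cm1 α 0) (cm1 α 1)
  have q12 := pB_single_term _ _ _ (TT F) _ _ _ _ (pBmtF_transpose _ (sk 1)) (rel_dg F hs 1)
    (rel_dg F hs 2) e2.symm (cm1 α 1) (cm1 α 2)
  have q20 := pB_single_term _ _ _ (TT F) _ _ _ _ (pBmtF_transpose _ (sk 2)) (rel_dg F hs 2)
    (rel_dg F hs 0) e1.symm (cm1 α 2) (cm1 α 0)
  change _ = -4 * (xx F α 0 ⬝ᵥ (TT F *ᵥ xx F α 1)) at q01
  change _ = -4 * (xx F α 1 ⬝ᵥ (TT F *ᵥ xx F α 2)) at q12
  change _ = -4 * (xx F α 2 ⬝ᵥ (TT F *ᵥ xx F α 0)) at q20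
  have hsym : xx F α 1 ⬝ᵥ (TT F *ᵥ xx F α 0) = xx F α 0 ⬝ᵥ (TT F *ᵥ xx F α 1) := by
    rw [Matrix.dotProduct_mulVec, ← Matrix.mulVec_transpose, hT, dotProduct_comm]
  rw [hsum] at q12 q20 ⊢
  simp only [Matrix.mulVec_neg, Matrix.mulVec_add, dotProduct_neg, neg_dotProduct, dotProduct_add,
    add_dotProduct, hsym] at q12 q20 ⊢
  rw [quad, pB_wedge3_eq, pB_wedge3_eq, pB_wedge3_eq]
  linear_combination 2 * gram F 2 2 * q01 + 2 * gram F 0 0 * q12 + 2 * gram F 1 1 * q20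

end

/-- `m_b G_a O = -2 (G_a F_b) (G_b O)` -/
theorem smul_G (F : Fin 4 → Fin 4 → R3) (hs : Skew F) (a b : Fin 3) (o : Fin 4 → ℝ) :
    gram F b b • (pBmtG (cmp F a) *ᵥ o) =
      (-2 : ℝ) • ((pBmtG (cmp F a) * pBmtF (cmp F b)) *ᵥ (pBmtG (cmp F b) *ᵥ o)) := by
  have h : (pBmtG (cmp F a) * pBmtF (cmp F b)) *ᵥ (pBmtG (cmp F b) *ᵥ o) =
      (-(gram F b b / 2)) • (pBmtG (cmp F a) *ᵥ o) := by
    rw [Matrix.mulVec_mulVec, Matrix.mul_assoc, rel_dg F hs b, Matrix.mul_smul, Matrix.mul_one,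
      Matrix.smul_mulVec]
  rw [h, smul_smul]
  congr 1
  ring

/-- Y1 -/
theorem sym_diag (F : Fin 4 → Fin 4 → R3) (hs : Skew F)
    (h01 : gram F 0 1 = 0) (h02 : gram F 0 2 = 0) (h12 : gram F 1 2 = 0)
    (hp : ∀ a, 0 < gram F a a)
    (hU : ∀ u : Fin 4 → ℝ, quad (fun m a => val F u (Pi.single m 1) a) F ≤ 0)
    (hpin : 0 ≤ (gram F 1 1 + gram F 2 2 - gram F 0 0) * (gram F 0 0 + gram F 2 2 - gram F 1 1) *
      (gram F 0 0 + gram F 1 1 - gram F 2 2) + 24 * (gram F 0 0 * gram F 1 1 * gram F 2 2))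
    (c : Fin 3 → Fin 4 → R3) (hsym : ∀ r m a, c r m a = c a m r)
    (hc : ∀ r, Constr (c r) F) : 0 ≤ ∑ r, quad (c r) F := by
  have sk : ∀ a l m, cmp F a l m = -cmp F a m l := fun a l m => by
    have := congrFun (hs l m) a
    simpa [DC.cmp] using this
  obtain ⟨e1, e2, hT⟩ := TT_facts F hs h01 h02 h12
  have hpos := TT_pos F hs h01 h02 h12 hU
  have h10 : gram F 1 0 = 0 := by rw [gram_symm, h01]
  have h20 : gram F 2 0 = 0 := by rw [gram_symm, h02]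
  have h21 : gram F 2 1 = 0 := by rw [gram_symm, h12]
  have ho : ∀ a b, cm1 (c a) b = cm1 (c b) a := fun a b => funext fun l => hsym a l b
  have t0 := pBmtF_transpose _ (sk 0)
  have t1 := pBmtF_transpose _ (sk 1)
  have t2 := pBmtF_transpose _ (sk 2)
  have g0 := pBmtG_transpose (cmp F 0)
  have g1 := pBmtG_transpose (cmp F 1)
  have g2 := pBmtG_transpose (cmp F 2)
  -- the three matrices
  have hUa : (pBmtG (cmp F 1) * pBmtF (cmp F 2)).transpose * TT F *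
      (pBmtG (cmp F 1) * pBmtF (cmp F 2)) = (gram F 1 1 * gram F 2 2 / 4) • TT F := by
    have k1 : pBmtG (cmp F 1) * pBmtF (cmp F 1) * (pBmtG (cmp F 0) * pBmtF (cmp F 2)) =
        (gram F 1 1 / 2) • (pBmtG (cmp F 2) * pBmtF (cmp F 0)) := by
      rw [rel_gd F hs 1, rel_bn F hs 0 2 h02, Matrix.smul_mul, Matrix.one_mul, smul_neg, neg_smul,
        neg_neg]
    rw [Matrix.transpose_mul, t2, g1, neg_mul_neg]
    calc pBmtF (cmp F 2) * pBmtG (cmp F 1) * TT F * (pBmtG (cmp F 1) * pBmtF (cmp F 2))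
        = pBmtF (cmp F 2) * (pBmtG (cmp F 1) * pBmtF (cmp F 1) *
            (pBmtG (cmp F 0) * pBmtF (cmp F 2))) * (pBmtG (cmp F 1) * pBmtF (cmp F 2)) := by
          rw [e2]; simp only [Matrix.mul_assoc]
      _ = (gram F 1 1 / 2) • (pBmtF (cmp F 2) * pBmtG (cmp F 2) *
            (pBmtF (cmp F 0) * pBmtG (cmp F 1)) * pBmtF (cmp F 2)) := by
          rw [k1]; simp only [Matrix.mul_assoc, Matrix.mul_smul, Matrix.smul_mul]
      _ = (gram F 1 1 * gram F 2 2 / 4) • TT F := by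
          rw [rel_dg F hs 2, rel_an F hs 0 1 h01, e2]
          simp only [Matrix.smul_mul, Matrix.one_mul, Matrix.neg_mul, smul_neg, neg_smul, neg_neg,
            smul_smul]
          congr 1
          ring
  have hVa : (pBmtG (cmp F 0) * pBmtF (cmp F 2)).transpose * TT F *
      (pBmtG (cmp F 0) * pBmtF (cmp F 2)) = (gram F 0 0 * gram F 2 2 / 4) • TT F := by
    rw [Matrix.transpose_mul, t2, g0, neg_mul_neg]
    calc pBmtF (cmp F 2) * pBmtG (cmp F 0) * TT F * (pBmtG (cmp F 0) * pBmtF (cmp F 2))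
        = pBmtF (cmp F 2) * (pBmtG (cmp F 0) * pBmtF (cmp F 0)) * pBmtG (cmp F 2) *
            (pBmtF (cmp F 1) * pBmtG (cmp F 0) * pBmtF (cmp F 2)) := by
          unfold TT; simp only [Matrix.mul_assoc]
      _ = (-(gram F 0 0 / 2)) • (pBmtF (cmp F 2) * pBmtG (cmp F 2) * TT F) := by
          rw [rel_gd F hs 0, ← e2]
          simp only [Matrix.mul_assoc, Matrix.mul_smul, Matrix.smul_mul, Matrix.one_mul]
      _ = (gram F 0 0 * gram F 2 2 / 4) • TT F := by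
          rw [rel_dg F hs 2, Matrix.smul_mul, Matrix.one_mul, smul_smul]
          congr 1
          ring
  have hWa : (pBmtG (cmp F 0) * pBmtF (cmp F 1)).transpose * TT F *
      (pBmtG (cmp F 0) * pBmtF (cmp F 1)) = (gram F 0 0 * gram F 1 1 / 4) • TT F := by
    have k1 : pBmtF (cmp F 1) * (pBmtG (cmp F 2) * pBmtF (cmp F 1)) =
        (gram F 1 1 / 2) • pBmtF (cmp F 2) := by
      rw [rel_bn F hs 2 1 h21, Matrix.mul_neg, ← Matrix.mul_assoc, rel_dg F hs 1,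
        Matrix.smul_mul, Matrix.one_mul, neg_smul, neg_neg]
    rw [Matrix.transpose_mul, t1, g0, neg_mul_neg]
    calc pBmtF (cmp F 1) * pBmtG (cmp F 0) * TT F * (pBmtG (cmp F 0) * pBmtF (cmp F 1))
        = pBmtF (cmp F 1) * (pBmtG (cmp F 0) * pBmtF (cmp F 0)) * (pBmtG (cmp F 2) *
            pBmtF (cmp F 1)) * (pBmtG (cmp F 0) * pBmtF (cmp F 1)) := by
          unfold TT; simp only [Matrix.mul_assoc]
      _ = (-(gram F 0 0 / 2)) • (pBmtF (cmp F 1) * (pBmtG (cmp F 2) * pBmtF (cmp F 1)) *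
            (pBmtG (cmp F 0) * pBmtF (cmp F 1))) := by
          rw [rel_gd F hs 0]
          simp only [Matrix.mul_assoc, Matrix.mul_smul, Matrix.smul_mul, Matrix.one_mul]
      _ = (-(gram F 0 0 / 2)) • ((gram F 1 1 / 2) • (pBmtF (cmp F 2) * pBmtG (cmp F 0) *
            pBmtF (cmp F 1))) := by
          rw [k1]; simp only [Matrix.mul_assoc, Matrix.smul_mul]
      _ = (gram F 0 0 * gram F 1 1 / 4) • TT F := by
          rw [rel_an F hs 2 0 h20, Matrix.neg_mul]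
          unfold TT
          rw [smul_smul, smul_neg, ← neg_smul]
          congr 1
          ring
  -- the three vectors
  set p := pBmtG (cmp F 2) *ᵥ cm1 (c 0) 1 with hp'
  set q := pBmtG (cmp F 1) *ᵥ cm1 (c 0) 2 with hq'
  set r := pBmtG (cmp F 0) *ᵥ cm1 (c 1) 2 with hr'
  have flip : ∀ (a b : Fin 3) (v : Fin 4 → ℝ), gram F a b = 0 →
      (-2 : ℝ) • ((pBmtG (cmp F a) * pBmtF (cmp F b)) *ᵥ v) =
        (2 : ℝ) • ((pBmtG (cmp F b) * pBmtF (cmp F a)) *ᵥ v) := by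
    intro a b v h
    rw [rel_bn F hs a b h, Matrix.neg_mulVec, smul_neg, neg_smul, neg_neg]
  have r0 := row_el (TT F) (pBmtG (cmp F 1) * pBmtF (cmp F 2)) hT (gram F 1 1) (gram F 2 2)
    (gram F 0 0 + gram F 2 2 - gram F 1 1) (gram F 0 0 + gram F 1 1 - gram F 2 2)
    (gram F 1 1 + gram F 2 2 - gram F 0 0) (hp 1) (hp 2) hUa (by ring) (by ring)
    (xx F (c 0) 1) (xx F (c 0) 2) (xx F (c 0) 0) p q
    (smul_G F hs 1 2 _) ((smul_G F hs 2 1 _).trans (flip 2 1 _ h21))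
    (by
      have h3 := xx_sum F (c 0) (hc 0)
      rw [add_assoc] at h3
      exact eq_neg_of_add_eq_zero_left h3)
  have r1 := row_el (TT F) (pBmtG (cmp F 0) * pBmtF (cmp F 2)) hT (gram F 0 0) (gram F 2 2)
    (gram F 1 1 + gram F 2 2 - gram F 0 0) (gram F 0 0 + gram F 1 1 - gram F 2 2)
    (gram F 0 0 + gram F 2 2 - gram F 1 1) (hp 0) (hp 2) hVa (by ring) (by ring)
    (xx F (c 1) 0) (xx F (c 1) 2) (xx F (c 1) 1) p r
    (by
      have h3 := smul_G F hs 0 2 (cm1 (c 1) 0)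
      rw [ho 1 0] at h3
      rw [hp', ← h3, xx, ho 1 0]) ((smul_G F hs 2 0 _).trans (flip 2 0 _ h20))
    (by
      have h3 := xx_sum F (c 1) (hc 1)
      rw [add_comm (xx F (c 1) 0), add_assoc] at h3
      exact eq_neg_of_add_eq_zero_left h3)
  have r2 := row_el (TT F) (pBmtG (cmp F 0) * pBmtF (cmp F 1)) hT (gram F 0 0) (gram F 1 1)
    (gram F 1 1 + gram F 2 2 - gram F 0 0) (gram F 0 0 + gram F 2 2 - gram F 1 1)
    (gram F 0 0 + gram F 1 1 - gram F 2 2) (hp 0) (hp 1) hWa (by ring) (by ring)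
    (xx F (c 2) 0) (xx F (c 2) 1) (xx F (c 2) 2) q r
    (by
      have h3 := smul_G F hs 0 1 (cm1 (c 2) 0)
      rw [ho 2 0] at h3
      rw [hq', ← h3, xx, ho 2 0])
    (by
      have h3 := (smul_G F hs 1 0 (cm1 (c 2) 1)).trans (flip 1 0 _ h10)
      rw [ho 2 1] at h3
      rw [hr', ← h3, xx, ho 2 1])
    (by
      have h3 := xx_sum F (c 2) (hc 2)
      rw [add_comm] at h3
      exact eq_neg_of_add_eq_zero_left h3)
  have s0 := quad_row F hs h01 h02 h12 (c 0) (hc 0)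
  have s1 := quad_row F hs h01 h02 h12 (c 1) (hc 1)
  have s2 := quad_row F hs h01 h02 h12 (c 2) (hc 2)
  have hm : 0 < gram F 0 0 * gram F 1 1 * gram F 2 2 := mul_pos (mul_pos (hp 0) (hp 1)) (hp 2)
  have hsymT : ∀ a b : Fin 4 → ℝ, b ⬝ᵥ (TT F *ᵥ a) = a ⬝ᵥ (TT F *ᵥ b) := by
    intro a b
    rw [Matrix.dotProduct_mulVec, ← Matrix.mulVec_transpose, hT, dotProduct_comm]
  have htot : gram F 0 0 * gram F 1 1 * gram F 2 2 * ∑ r, quad (c r) F =
      8 * ((gram F 0 0 + gram F 1 1) * (p ⬝ᵥ (TT F *ᵥ p)) +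
        (gram F 0 0 + gram F 2 2) * (q ⬝ᵥ (TT F *ᵥ q)) +
        (gram F 1 1 + gram F 2 2) * (r ⬝ᵥ (TT F *ᵥ r)) -
        (gram F 1 1 + gram F 2 2 - gram F 0 0) * (p ⬝ᵥ (TT F *ᵥ q)) -
        (gram F 0 0 + gram F 2 2 - gram F 1 1) * (p ⬝ᵥ (TT F *ᵥ r)) -
        (gram F 0 0 + gram F 1 1 - gram F 2 2) * (q ⬝ᵥ (TT F *ᵥ r))) := by
    rw [Fin.sum_univ_three]
    linear_combination s0 + s1 + s2 + r0 + r1 + r2
  refine nonneg_of_mul_nonneg_right ?_ hm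
  rw [htot]
  have fin := psd_fin (TT F) hT hpos p q r (gram F 0 0) (gram F 1 1) (gram F 2 2) (hp 0) (hp 1)
    (hp 2) hpin
  linarith

end Pool.Agent.Helper8.DE
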